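import Pool.Agent.Y244.AC.Gen

/-!
# The comparison with the centred family, from one tube inequality
-/

set_option autoImplicit false

open MeasureTheory Set ENNReal

namespace Pool.Agent.Y244.AC

open Pool.Agent.H810R3.Tub Pool.Agent.W772 Pool.Agent.Y244.WR

theorem tubeQ_of_tubeP {d : ℕ} {q : ℝ} (h : Pool.Agent.Y244.HM.TubeP d q) : TubeQ d q := by
  obtain ⟨C, hC, h⟩ := h
  exact ⟨C, hC, fun δ hδ hδ1 => h δ hδ hδ1.le⟩

theorem gam_zero {d : ℕ} (hd : 1 ≤ d) {c : ℝ} (hc : 0 < c) {p : ℝ≥0∞}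
    (hp' : ENNReal.ofReal (1 + c / d) ≤ p) : gam d c p = 0 := by
  have hd0 : (0 : ℝ) < d := by exact_mod_cast hd
  unfold gam
  apply max_eq_left
  apply min_le_of_right_le
  have hu : c / ((d : ℝ) + c) ≤ 1 - 1 / p.toReal := by
    rcases eq_or_ne p ∞ with ht | ht
    · have h0 : (1 : ℝ) - 1 / p.toReal = 1 := by rw [ht]; simp
      rw [h0, div_le_one (by positivity)]
      linarith
    · have h1 : 1 + c / (d : ℝ) ≤ p.toReal :=
        (ENNReal.ofReal_le_iff_le_toReal ht).1 hp'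
      have h2 : 1 / p.toReal ≤ 1 / (1 + c / (d : ℝ)) :=
        one_div_le_one_div_of_le (by positivity) h1
      have h3 : 1 / (1 + c / (d : ℝ)) = 1 - c / ((d : ℝ) + c) := by
        field_simp
        ring
      linarith
  have h4 : 1 ≤ (1 - 1 / p.toReal) * ((d : ℝ) + c) / c := by
    rw [le_div_iff₀ hc]
    have h5 := mul_le_mul_of_nonneg_right hu (by positivity : (0 : ℝ) ≤ (d : ℝ) + c)
    rw [div_mul_cancel₀ _ (by positivity)] at h5
    linarith
  linarith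

/-- The comparison. -/
theorem comparison {d : ℕ} (hd : 1 ≤ d) {c : ℝ} (hc : 0 < c) (h : TubeQ d (1 + c / d))
    {σ κ : ℝ} (hσ : 0 < σ) (hσ1 : σ ≤ 1) (hκ : 0 < κ) :
    ∃ C : ℝ, 0 < C ∧ ∀ N : ℝ, 1 ≤ N → ∀ (ι : Type) [Fintype ι] (ω : ι → Vec d)
      (f : ι → Fin d → Space d), (∀ i, ‖ω i‖ ≤ 1) → (∀ i j, i ≠ j → σ / N ≤ ‖ω i - ω j‖) →
      κ * N ^ d ≤ (Fintype.card ι : ℝ) →
      (∀ i, Orthonormal ℝ (Fin.cons (nor (ω i)) (f i) : Fin (d + 1) → Space d)) →
      ∀ (a : ι → Space d) (p : ℝ≥0∞), 1 ≤ p →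
      eLpNorm (fun y : Space d => ∑ i, (box N (nor (ω i)) (f i) (a i)).indicator (fun _ => (1 : ℝ)) y) p volume
        ≤ ENNReal.ofReal (C * N ^ gam d c p) *
          eLpNorm (fun y : Space d => ∑ i,
            (box N (nor (ω i)) (f i) 0).indicator (fun _ => (1 : ℝ)) y) p volume := by
  obtain ⟨E, hE, hI⟩ := intP hd hc h σ hσ hσ1
  obtain ⟨D, hD, hC⟩ := cmpP hd hc κ E hκ hE
  refine ⟨D, by linarith, ?_⟩
  intro N hN ι _ ω f hω hsep hcard hf a p hp
  have hN0 : 0 < N := by linarith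
  have hne : Nonempty ι := by
    have h1 : 0 < κ * N ^ d := by positivity
    have h2 : (0 : ℝ) < (Fintype.card ι : ℝ) := by linarith
    have h3 : 0 < Fintype.card ι := by exact_mod_cast h2
    exact Fintype.card_pos_iff.1 h3
  exact hC hN ω f hf a hcard (hI N hN ι ω f a hω hsep hf) p hp

end Pool.Agent.Y244.AC
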