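import Pool.Agent.W193.AC.INT
import Pool.Agent.W962.AC.CMP
import Pool.Agent.Y244.WR.Max
import Pool.Agent.Y244.HM.Alpha

/-!
# From tube inequalities to the comparison with the centred family of boxes (MP_ac5134)
-/

set_option autoImplicit false
set_option linter.unusedSectionVars false
set_option maxHeartbeats 1000000

open MeasureTheory Set Filter Topology ENNReal NNReal Metric

namespace Pool.Agent.Y244.AC

open Pool.Agent.H810R3.Tub Pool.Agent.W772 Pool.Agent.W193.AC Pool.Agent.W962.AC
open Pool.Agent.Y244.WR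

/-- The integral bound at the exponent `1 + c / d`. -/
def IntP (d : ℕ) (c : ℝ) : Prop := ∀ σ : ℝ, 0 < σ → σ ≤ 1 → ∃ E : ℝ, 0 < E ∧
    ∀ (N : ℝ), 1 ≤ N → ∀ (ι : Type) [Fintype ι] (ω : ι → Vec d) (f : ι → Fin d → Space d)
      (a : ι → Space d), (∀ i, ‖ω i‖ ≤ 1) → (∀ i j, i ≠ j → σ / N ≤ ‖ω i - ω j‖) →
      (∀ i, Orthonormal ℝ (Fin.cons (nor (ω i)) (f i) : Fin (d + 1) → Space d)) →
      ∫⁻ y, Fb N ω f a y ^ (1 + c / (d : ℝ)) ≤
        ENNReal.ofReal (E * (Fintype.card ι : ℝ) ^ (1 + (c - 1) / (d : ℝ)) * N ^ (d + 2))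

/-- The exponent of `N` lost at the exponent `p`: `max 0 (min (d (1 - 1/c) u) (1 - u (d + c)/c))`,
`u = 1 - 1/p`. -/
noncomputable def gam (d : ℕ) (c : ℝ) (p : ℝ≥0∞) : ℝ :=
  max 0 (min ((d : ℝ) * (1 - 1 / c) * (1 - 1 / p.toReal))
    (1 - (1 - 1 / p.toReal) * ((d : ℝ) + c) / c))

/-- Comparison of the norms, for all exponents, given the bound at the exponent `1 + c / d`. -/
def CmpP (d : ℕ) (c : ℝ) : Prop := ∀ κ E : ℝ, 0 < κ → 0 < E → ∃ D : ℝ, 1 ≤ D ∧
    ∀ {ι : Type} [Fintype ι] [Nonempty ι] {N : ℝ} (_ : 1 ≤ N)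
      (ω : ι → Vec d) (f : ι → Fin d → Space d)
      (_ : ∀ i, Orthonormal ℝ (Fin.cons (nor (ω i)) (f i) : Fin (d + 1) → Space d)) (a : ι → Space d)
      (_ : κ * N ^ d ≤ (Fintype.card ι : ℝ))
      (_ : ∫⁻ y, Fb N ω f a y ^ (1 + c / (d : ℝ)) ≤
        ENNReal.ofReal (E * (Fintype.card ι : ℝ) ^ (1 + (c - 1) / (d : ℝ)) * N ^ (d + 2)))
      (p : ℝ≥0∞) (_ : 1 ≤ p),
      eLpNorm (fun y : Space d => ∑ i, (box N (nor (ω i)) (f i) (a i)).indicator (fun _ => (1 : ℝ)) y) p volume
        ≤ ENNReal.ofReal (D * N ^ gam d c p) *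
          eLpNorm (fun y : Space d => ∑ i,
            (box N (nor (ω i)) (f i) 0).indicator (fun _ => (1 : ℝ)) y) p volume

theorem intP {d : ℕ} (hd : 1 ≤ d) {c : ℝ} (hc : 0 < c) (h : TubeQ d (1 + c / d)) :
    IntP d c := by
  intro σ hσ hσ1
  have hd0 : (0 : ℝ) < d := by exact_mod_cast (by omega : 0 < d)
  set q : ℝ := 1 + c / (d : ℝ) with hq
  have hq1 : 1 ≤ q := by
    have : 0 < c / (d : ℝ) := by positivity
    rw [hq]; linarith
  have hqd : q - 1 / (d : ℝ) = 1 + (c - 1) / (d : ℝ) := by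
    rw [hq]; field_simp; ring
  obtain ⟨C, hC, hT⟩ := h
  set m : ℕ := ⌈4 * (d : ℝ) / σ⌉₊ with hm
  have hm1 : 1 ≤ m := Nat.one_le_ceil_iff.2 (by positivity)
  have hm0 : (0 : ℝ) < m := by exact_mod_cast hm1
  have hmle : 4 * (d : ℝ) / σ ≤ m := Nat.le_ceil _
  set K : ℝ := ((Fintype.card (Fin d → Fin (m + 1)) : ℕ) : ℝ) with hK
  have hK0 : 0 < K := by
    rw [hK]
    exact_mod_cast Fintype.card_pos
  refine ⟨K ^ (q - 1) * (K * (C * (σ / 4) ^ d)), by positivity, ?_⟩
  intro N hN ι _ ω f a hω hsep hf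
  have hN0 : 0 < N := by linarith
  set δ : ℝ := σ / 4 / N with hδ
  have hδ0 : 0 < δ := by positivity
  have hδ1 : δ < 1 := by
    rw [hδ, div_lt_one hN0]
    linarith
  have hmd : (d : ℝ) * (N / m) ≤ δ * N ^ 2 := by
    have e1 : δ * N ^ 2 = σ / 4 * N := by
      rw [hδ]; field_simp
    have e2 : (d : ℝ) * (N / m) = (d : ℝ) / m * N := by ring
    rw [e1, e2]
    apply mul_le_mul_of_nonneg_right _ hN0.le
    rw [div_le_iff₀ hm0]
    rw [div_le_iff₀ hσ] at hmle
    linarith
  set Fk : (Fin d → Fin (m + 1)) → Space d → ℝ≥0∞ := fun k y =>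
    ∑ i, (cyl (N ^ 2) δ (a i + off N m (f i) k) (nor (ω i))).indicator (fun _ => (1 : ℝ≥0∞)) y
    with hFk
  have h1 : ∀ y, Fb N ω f a y ≤ ∑ k, Fk k y := by
    intro y
    simp only [hFk]
    rw [Finset.sum_comm]
    unfold Fb
    refine Finset.sum_le_sum fun i _ => ?_
    by_cases hy : y ∈ box N (nor (ω i)) (f i) (a i)
    · obtain ⟨k, hk⟩ := cover hN hm1 hmd (hf i) hy
      rw [indicator_of_mem hy]
      calc (1 : ℝ≥0∞) = (cyl (N ^ 2) δ (a i + off N m (f i) k) (nor (ω i))).indicator
            (fun _ => (1 : ℝ≥0∞)) y := by rw [indicator_of_mem hk]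
        _ ≤ _ := Finset.single_le_sum (f := fun k => (cyl (N ^ 2) δ (a i + off N m (f i) k)
            (nor (ω i))).indicator (fun _ => (1 : ℝ≥0∞)) y) (fun _ _ => zero_le)
            (Finset.mem_univ k)
    · rw [indicator_of_notMem hy]
      exact zero_le
  set M : ℝ := (Fintype.card ι : ℝ) with hM
  set B : ℝ≥0∞ := ENNReal.ofReal (C * δ ^ (d : ℝ) * M ^ (q - 1 / (d : ℝ))) with hB
  have h2 : ∀ k, ∫⁻ y, Fk k y ^ q ≤ ENNReal.ofReal ((N ^ 2) ^ (d + 1)) * B := by
    intro k
    refine cyl_int (by positivity) _ _ ?_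
    refine hT δ hδ0 hδ1 ι _ _ ?_ ?_
    · intro i
      rw [LinearIsometryEquiv.norm_map]
      exact norm_e (hf i)
    · intro i j hij
      rw [← map_sub, LinearIsometryEquiv.norm_map]
      have h3 := nor_sep (ω i) (ω j) (hω i) (hω j)
      have h4 := hsep i j hij
      have h5 : δ = σ / N / 4 := by rw [hδ]; ring
      rw [h5]
      linarith
  have hFkm : ∀ k, Measurable (fun y => Fk k y ^ q) := by
    intro k
    refine Measurable.pow_const ?_ q
    apply Finset.measurable_fun_sum
    intro i _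
    refine measurable_const.indicator ?_
    have g1 : Continuous (fun y : Space d =>
      |inner ℝ (y - (a i + off N m (f i) k)) (nor (ω i))|) := by fun_prop
    have g2 : Continuous (fun y : Space d => ‖(y - (a i + off N m (f i) k)) -
      (inner ℝ (y - (a i + off N m (f i) k)) (nor (ω i)) : ℝ) • nor (ω i)‖) := by fun_prop
    exact ((isClosed_le g1 continuous_const).inter (isClosed_le g2 continuous_const)).measurableSet
  calc ∫⁻ y, Fb N ω f a y ^ q
      ≤ ∫⁻ y, ENNReal.ofReal (K ^ (q - 1)) * ∑ k, Fk k y ^ q := by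
        refine lintegral_mono fun y => ?_
        calc Fb N ω f a y ^ q ≤ (∑ k, Fk k y) ^ q :=
              ENNReal.rpow_le_rpow (h1 y) (by linarith)
          _ ≤ _ := by
              have h6 := ENNReal.rpow_sum_le_const_mul_sum_rpow (s := Finset.univ)
                (f := fun k => Fk k y) hq1
              refine h6.trans (le_of_eq ?_)
              congr 1
              rw [Finset.card_univ, ← ENNReal.ofReal_natCast,
                ENNReal.ofReal_rpow_of_pos hK0]
    _ = ENNReal.ofReal (K ^ (q - 1)) * ∑ k, ∫⁻ y, Fk k y ^ q := by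
        rw [lintegral_const_mul _ (Finset.measurable_fun_sum _ fun k _ => hFkm k),
          lintegral_finsetSum _ fun k _ => hFkm k]
    _ ≤ ENNReal.ofReal (K ^ (q - 1)) * ∑ _k : Fin d → Fin (m + 1),
          (ENNReal.ofReal ((N ^ 2) ^ (d + 1)) * B) := by
        gcongr with k _
        exact h2 k
    _ = _ := by
        rw [Finset.sum_const, Finset.card_univ, nsmul_eq_mul, ← ENNReal.ofReal_natCast, ← hK, hB,
          ← ENNReal.ofReal_mul (by positivity), ← ENNReal.ofReal_mul (by positivity),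
          ← ENNReal.ofReal_mul (by positivity)]
        congr 1
        rw [hqd, Real.rpow_natCast]
        have e1 : δ ^ d * (N ^ 2) ^ (d + 1) = (σ / 4) ^ d * N ^ (d + 2) := by
          rw [hδ, div_pow (σ / 4) N d]
          field_simp
          ring
        calc K ^ (q - 1) * (K * ((N ^ 2) ^ (d + 1) * (C * δ ^ d * M ^ (1 + (c - 1) / (d : ℝ)))))
            = K ^ (q - 1) * (K * (C * M ^ (1 + (c - 1) / (d : ℝ)))) *
                (δ ^ d * (N ^ 2) ^ (d + 1)) := by ring
          _ = _ := by rw [e1]; ring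

theorem cmpP {d : ℕ} (hd : 1 ≤ d) {c : ℝ} (hc : 0 < c) : CmpP d c := by
  intro κ E hκ hE
  have hd1 : 1 ≤ d := by omega
  have hd0 : (0 : ℝ) < d := by exact_mod_cast hd1
  set q : ℝ := 1 + c / (d : ℝ) with hq
  have hq1 : 1 < q := by
    have : 0 < c / (d : ℝ) := by positivity
    rw [hq]; linarith
  have hq0 : 0 < q := by linarith
  set v : ℝ := wv d with hv
  have hv0 : 0 < v := wv_pos d
  set b : ℝ := (1 + (d : ℝ)) ^ (d + 1) * v with hb
  have hb0 : 0 < b := by positivity
  set e : ℝ := E * κ ^ (-(1 / (d : ℝ))) with he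
  have he0 : 0 < e := by positivity
  set D : ℝ := max 1 (max (max 1 e * (2 ^ (d + 1) / v)) (max 1 e * max 1 b)) with hD
  have hD1 : 1 ≤ D := le_max_left _ _
  have hDa : max 1 e * (2 ^ (d + 1) / v) ≤ D := (le_max_left _ _).trans (le_max_right _ _)
  have hDb : max 1 e * max 1 b ≤ D := (le_max_right _ _).trans (le_max_right _ _)
  refine ⟨D, hD1, ?_⟩
  intro ι _ _ N hN ω f hf a hcard hQi p hp
  have hN0 : 0 < N := by linarith
  have hD0 : 0 < D := by linarith
  have hwe : volume (ball (0 : Space d) 1) = ENNReal.ofReal v := by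
    rw [hv, wv, ENNReal.ofReal_toReal measure_ball_lt_top.ne]
  set M : ℝ := (Fintype.card ι : ℝ) with hM
  have hM0 : 0 < M := by
    have h1 : (0 : ℝ) < (Fintype.card ι : ℝ) := by
      have := Fintype.card_pos (α := ι)
      exact_mod_cast this
    exact h1
  -- the bound at the exponent `q` in the form `e M^q N^(d+1)`
  have hQi' : ∫⁻ y, Fb N ω f a y ^ q ≤ ENNReal.ofReal (e * M ^ q * N ^ (d + 1)) := by
    refine hQi.trans (ENNReal.ofReal_le_ofReal ?_)
    have h1 : M ^ (1 + (c - 1) / (d : ℝ)) = M ^ q * M ^ (-(1 / (d : ℝ))) := by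
      rw [← Real.rpow_add hM0]
      congr 1
      rw [hq]
      ring
    have h2 : M ^ (-(1 / (d : ℝ))) ≤ κ ^ (-(1 / (d : ℝ))) * N⁻¹ := by
      have h3 : M ^ (-(1 / (d : ℝ))) ≤ (κ * N ^ d) ^ (-(1 / (d : ℝ))) :=
        Real.rpow_le_rpow_of_nonpos (by positivity) hcard (by
          have : 0 < 1 / (d : ℝ) := by positivity
          linarith)
      refine h3.trans (le_of_eq ?_)
      rw [Real.mul_rpow hκ.le (by positivity), ← Real.rpow_natCast N d, ← Real.rpow_mul hN0.le]
      congr 1
      rw [show (d : ℝ) * -(1 / (d : ℝ)) = -1 by field_simp, Real.rpow_neg_one]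
    rw [h1]
    calc E * (M ^ q * M ^ (-(1 / (d : ℝ)))) * N ^ (d + 2)
        ≤ E * (M ^ q * (κ ^ (-(1 / (d : ℝ))) * N⁻¹)) * N ^ (d + 2) := by gcongr
      _ = e * M ^ q * N ^ (d + 1) := by
        rw [he, pow_succ N (d + 1)]
        field_simp
  set Q : ℝ := e * M ^ q * N ^ (d + 1) with hQ
  have hQ0 : 0 < Q := by positivity
  set V : ℝ := M * N ^ (d + 2) with hV
  have hV0 : 0 < V := by positivity
  have hVa : ∫⁻ y, Fb N ω f a y = ENNReal.ofReal V := Fb_int hN hf a
  have hV0' : ∫⁻ y, Fb N ω f (fun _ => 0) y = ENNReal.ofReal V := Fb_int hN hf _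
  set B : ℝ := b * N ^ (2 * (d + 1)) with hB
  have hB0 : 0 < B := by positivity
  have hBv : volume (closedBall (0 : Space d) ((1 + d) * N ^ 2)) = ENNReal.ofReal B := by
    have : Nontrivial (Space d) := by
      apply Module.nontrivial_of_finrank_pos (R := ℝ)
      rw [finrank_space]
      omega
    rw [Measure.addHaar_closedBall _ _ (by positivity), finrank_space, hwe,
      ← ENNReal.ofReal_mul (by positivity)]
    congr 1
    rw [hB, hb, mul_pow, ← pow_mul]
    ring
  have hbv : volume (ball (0 : Space d) (N / 2)) = ENNReal.ofReal ((N / 2) ^ (d + 1) * v) := by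
    rw [Measure.addHaar_ball_of_pos _ _ (by positivity), finrank_space, hwe,
      ← ENNReal.ofReal_mul (by positivity)]
  have hFm := Fb_measurable N ω f a
  have hFm0 := Fb_measurable N ω f (fun _ => (0 : Space d))
  have hball : ∀ y ∈ ball (0 : Space d) (N / 2), Fb N ω f (fun _ => (0 : Space d)) y = ENNReal.ofReal M := by
    intro y hy
    unfold Fb
    rw [Finset.sum_congr rfl (fun i _ => indicator_of_mem (ball_sub_box hN (hf i) hy) _)]
    simp [hM]
  have hFc : ∀ y, Fb N ω f a y ≤ ENNReal.ofReal M := by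
    intro y
    refine (Fb_le N ω f a y).trans (le_of_eq ?_)
    rw [hM, ENNReal.ofReal_natCast]
  have hg0 : 0 ≤ gam d c p := le_max_left _ _
  have hNg : 1 ≤ N ^ gam d c p := Real.one_le_rpow hN hg0
  rcases eq_or_ne p ∞ with hpt | hpt
  · -- the case of the supremum norm
    have hD1e : (1 : ℝ≥0∞) ≤ ENNReal.ofReal (D * N ^ gam d c p) := by
      rw [← ENNReal.ofReal_one]
      refine ENNReal.ofReal_le_ofReal ?_
      calc (1 : ℝ) = 1 * 1 := (one_mul 1).symm
        _ ≤ D * N ^ gam d c p := mul_le_mul hD1 hNg zero_le_one hD0.le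
    rw [hpt] at hD1e ⊢
    rw [eLpNorm_exponent_top, eLpNorm_exponent_top]
    have h1 : eLpNormEssSup (fun y : Space d => ∑ i, (box N (nor (ω i)) (f i)
        (a i)).indicator (fun _ => (1 : ℝ)) y) volume ≤ ENNReal.ofReal M := by
      unfold eLpNormEssSup
      refine essSup_le_of_ae_le _ (Filter.Eventually.of_forall fun y => ?_)
      show ‖∑ i, (box N (nor (ω i)) (f i) (a i)).indicator (fun _ => (1 : ℝ)) y‖ₑ ≤ ENNReal.ofReal M
      rw [enorm_sum_box]
      exact hFc y
    have h2 : ENNReal.ofReal M ≤ eLpNormEssSup (fun y : Space d => ∑ i,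
        (box N (nor (ω i)) (f i) 0).indicator (fun _ => (1 : ℝ)) y) volume := by
      have h3 := ae_le_eLpNormEssSup (f := fun y : Space d => ∑ i,
        (box N (nor (ω i)) (f i) 0).indicator (fun _ => (1 : ℝ)) y) (μ := volume)
      have h4 : volume (ball (0 : Space d) (N / 2)) ≠ 0 := (measure_ball_pos _ _ (by positivity)).ne'
      obtain ⟨y, hy1, hy2⟩ : ∃ y ∈ ball (0 : Space d) (N / 2), ‖∑ i,
          (box N (nor (ω i)) (f i) 0).indicator (fun _ => (1 : ℝ)) y‖ₑ ≤ eLpNormEssSup (fun y : Space d => ∑ i,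
          (box N (nor (ω i)) (f i) 0).indicator (fun _ => (1 : ℝ)) y) volume := by
        by_contra hcon
        push Not at hcon
        apply h4
        refine measure_mono_null ?_ (ae_iff.1 h3)
        intro y hy
        exact not_le.2 (hcon y hy)
      have h5 := enorm_sum_box N ω f (fun _ => (0 : Space d)) y
      rw [h5, hball y hy1] at hy2
      exact hy2
    calc _ ≤ 1 * ENNReal.ofReal M := by rw [one_mul]; exact h1
      _ ≤ _ := mul_le_mul' hD1e h2
  · -- finite exponents
    have hp0 : p ≠ 0 := by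
      intro h
      rw [h] at hp
      exact absurd hp (by simp)
    set r : ℝ := p.toReal with hr
    have hr1 : 1 ≤ r := by
      rw [hr, ← ENNReal.toReal_one]
      exact ENNReal.toReal_mono hpt hp
    have hr0 : 0 < r := by linarith
    rw [eLpNorm_eq_lintegral_rpow_enorm_toReal hp0 hpt, eLpNorm_eq_lintegral_rpow_enorm_toReal hp0 hpt, ← hr]
    have e1 : ∫⁻ y : Space d, ‖∑ i, (box N (nor (ω i)) (f i) (a i)).indicator (fun _ => (1 : ℝ)) y‖ₑ ^ r =
        ∫⁻ y, Fb N ω f a y ^ r := by
      refine lintegral_congr fun y => ?_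
      rw [enorm_sum_box]
    have e2 : ∫⁻ y : Space d, ‖∑ i, (box N (nor (ω i)) (f i) 0).indicator (fun _ => (1 : ℝ)) y‖ₑ ^ r =
        ∫⁻ y, Fb N ω f (fun _ => 0) y ^ r := by
      refine lintegral_congr fun y => ?_
      rw [← enorm_sum_box]
    rw [e1, e2]
    -- the first lower bound
    have hlow1 : ENNReal.ofReal (M ^ r * ((N / 2) ^ (d + 1) * v)) ≤ ∫⁻ y, Fb N ω f (fun _ => 0) y ^ r := by
      calc ENNReal.ofReal (M ^ r * ((N / 2) ^ (d + 1) * v))
          = ENNReal.ofReal (M ^ r) * volume (ball (0 : Space d) (N / 2)) := by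
            rw [hbv, ENNReal.ofReal_mul (by positivity)]
        _ = ∫⁻ _ in ball (0 : Space d) (N / 2), ENNReal.ofReal (M ^ r) := by
            rw [setLIntegral_const]
        _ = ∫⁻ y in ball (0 : Space d) (N / 2), Fb N ω f (fun _ => 0) y ^ r := by
            refine setLIntegral_congr_fun measurableSet_ball fun y hy => ?_
            rw [hball y hy, ENNReal.ofReal_rpow_of_pos hM0]
        _ ≤ _ := setLIntegral_le_lintegral _ _
    -- the second lower bound
    have hlow2 : ENNReal.ofReal (V ^ r * (B ^ (r - 1))⁻¹) ≤ ∫⁻ y, Fb N ω f (fun _ => 0) y ^ r := by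
      have h2 := lower (μ := (volume : Measure (Space d))) hFm0 (B := closedBall (0 : Space d) ((1 + d) * N ^ 2))
        measurableSet_closedBall (by
          intro y hy
          unfold Fb
          apply Finset.sum_eq_zero
          intro i _
          exact indicator_of_notMem (fun h => hy (box_sub_ball hN (hf i) h)) _) hr1
      rw [hV0', hBv, ENNReal.ofReal_rpow_of_pos hV0, ENNReal.ofReal_rpow_of_pos hB0] at h2
      have hBr : 0 < B ^ (r - 1) := Real.rpow_pos_of_pos hB0 _
      rw [← div_eq_mul_inv, ENNReal.ofReal_div_of_pos hBr]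
      exact ENNReal.div_le_of_le_mul h2
    have hDN : (D * N ^ gam d c p) ^ r = D ^ r * N ^ (gam d c p * r) := by
      rw [Real.mul_rpow hD0.le (by positivity), ← Real.rpow_mul hN0.le]
    have key : ∫⁻ y, Fb N ω f a y ^ r ≤ ENNReal.ofReal ((D * N ^ gam d c p) ^ r) *
        ∫⁻ y, Fb N ω f (fun _ => 0) y ^ r := by
      rcases le_total r q with hrq | hrq
      · -- small exponents
        have h1 := interp (μ := (volume : Measure (Space d))) hFm hq1 hr1 hrq
        set w : ℝ := (r - 1) / (q - 1) with hw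
        have hq1' : 0 < q - 1 := by linarith
        have hw0 : 0 ≤ w := div_nonneg (by linarith) hq1'.le
        have hw1 : w ≤ 1 := by
          rw [hw, div_le_one hq1']
          linarith
        have hwr : 1 + w * (q - 1) = r := by
          rw [hw, div_mul_cancel₀ _ hq1'.ne']
          ring
        have hwd : w = d * (r - 1) / c := by
          rw [hw, hq, add_sub_cancel_left]
          field_simp
        have hX : ∫⁻ y, Fb N ω f a y ^ r ≤
            ENNReal.ofReal (max 1 e * M ^ r * N ^ ((d : ℝ) + 2 - w)) := by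
          calc ∫⁻ y, Fb N ω f a y ^ r
              ≤ (∫⁻ y, Fb N ω f a y) ^ (1 - w) * (∫⁻ y, Fb N ω f a y ^ q) ^ w := h1
            _ ≤ (ENNReal.ofReal V) ^ (1 - w) * (ENNReal.ofReal Q) ^ w := by
                rw [hVa]
                exact mul_le_mul' le_rfl (ENNReal.rpow_le_rpow hQi' hw0)
            _ = ENNReal.ofReal (V ^ (1 - w) * Q ^ w) := by
                rw [ENNReal.ofReal_rpow_of_pos hV0, ENNReal.ofReal_rpow_of_pos hQ0,
                  ← ENNReal.ofReal_mul (by positivity)]
            _ ≤ _ := ENNReal.ofReal_le_ofReal (upp hM0 hN0 he0 hw0 hw1 hwr)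
        have hg1 : (1 - (1 - 1 / r) * ((d : ℝ) + c) / c) * r = 1 - w := by
          rw [hwd]
          field_simp
          ring
        have hg2 : ((d : ℝ) * (1 - 1 / c) * (1 - 1 / r)) * r = d * (r - 1) - w := by
          rw [hwd]
          field_simp
        have hgam : gam d c p = max 0 (min ((d : ℝ) * (1 - 1 / c) * (1 - 1 / r))
            (1 - (1 - 1 / r) * ((d : ℝ) + c) / c)) := rfl
        rcases le_total ((d : ℝ) * (1 - 1 / c) * (1 - 1 / r))
            (1 - (1 - 1 / r) * ((d : ℝ) + c) / c) with hmin | hmin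
        · rw [min_eq_left hmin] at hgam
          have hexp : d * (r - 1) - w ≤ gam d c p * r := by
            rw [← hg2, hgam]
            exact mul_le_mul_of_nonneg_right (le_max_right _ _) hr0.le
          refine hX.trans ?_
          calc ENNReal.ofReal (max 1 e * M ^ r * N ^ ((d : ℝ) + 2 - w))
              ≤ ENNReal.ofReal (D ^ r * N ^ (d * (r - 1) - w) * (V ^ r * (B ^ (r - 1))⁻¹)) :=
                ENNReal.ofReal_le_ofReal (low2 hM0 hN0 hb0 hr1 hDb)
            _ ≤ ENNReal.ofReal ((D * N ^ gam d c p) ^ r * (V ^ r * (B ^ (r - 1))⁻¹)) := by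
                apply ENNReal.ofReal_le_ofReal
                rw [hDN]
                refine mul_le_mul_of_nonneg_right ?_ (by positivity)
                exact mul_le_mul_of_nonneg_left (Real.rpow_le_rpow_of_exponent_le hN hexp)
                  (by positivity)
            _ = ENNReal.ofReal ((D * N ^ gam d c p) ^ r) * ENNReal.ofReal (V ^ r * (B ^ (r - 1))⁻¹) :=
                ENNReal.ofReal_mul (by positivity)
            _ ≤ _ := mul_le_mul' le_rfl hlow2
        · rw [min_eq_right hmin] at hgam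
          have hexp : 1 - w ≤ gam d c p * r := by
            rw [← hg1, hgam]
            exact mul_le_mul_of_nonneg_right (le_max_right _ _) hr0.le
          refine hX.trans ?_
          calc ENNReal.ofReal (max 1 e * M ^ r * N ^ ((d : ℝ) + 2 - w))
              ≤ ENNReal.ofReal (D ^ r * N ^ (1 - w) * (M ^ r * ((N / 2) ^ (d + 1) * v))) :=
                ENNReal.ofReal_le_ofReal (low1 hM0 hN0 hv0 hr1 hD1 hDa)
            _ ≤ ENNReal.ofReal ((D * N ^ gam d c p) ^ r * (M ^ r * ((N / 2) ^ (d + 1) * v))) := by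
                apply ENNReal.ofReal_le_ofReal
                rw [hDN]
                refine mul_le_mul_of_nonneg_right ?_ (by positivity)
                exact mul_le_mul_of_nonneg_left (Real.rpow_le_rpow_of_exponent_le hN hexp)
                  (by positivity)
            _ = ENNReal.ofReal ((D * N ^ gam d c p) ^ r)
                * ENNReal.ofReal (M ^ r * ((N / 2) ^ (d + 1) * v)) :=
                ENNReal.ofReal_mul (by positivity)
            _ ≤ _ := mul_le_mul' le_rfl hlow1
      · -- large exponents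
        have h1 : ∫⁻ y, Fb N ω f a y ^ r ≤ ENNReal.ofReal (M ^ (r - q) * Q) := by
          calc ∫⁻ y, Fb N ω f a y ^ r ≤ ∫⁻ y, ENNReal.ofReal (M ^ (r - q)) * Fb N ω f a y ^ q := by
                refine lintegral_mono fun y => ?_
                simp only
                have e3 : Fb N ω f a y ^ r = Fb N ω f a y ^ (r - q) * Fb N ω f a y ^ q := by
                  rw [← ENNReal.rpow_add_of_nonneg _ _ (by linarith) hq0.le, sub_add_cancel]
                rw [e3, ← ENNReal.ofReal_rpow_of_pos hM0]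
                exact mul_le_mul' (ENNReal.rpow_le_rpow (hFc y) (by linarith)) le_rfl
            _ = ENNReal.ofReal (M ^ (r - q)) * ∫⁻ y, Fb N ω f a y ^ q :=
                lintegral_const_mul' _ _ ENNReal.ofReal_ne_top
            _ ≤ ENNReal.ofReal (M ^ (r - q)) * ENNReal.ofReal Q := mul_le_mul' le_rfl hQi'
            _ = _ := (ENNReal.ofReal_mul (by positivity)).symm
        have h3 : M ^ (r - q) * Q ≤ (D * N ^ gam d c p) ^ r * (M ^ r * ((N / 2) ^ (d + 1) * v)) := by
          have h5 : M ^ (r - q) * M ^ q = M ^ r := by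
            rw [← Real.rpow_add hM0, sub_add_cancel]
          have h6 : N ^ (d + 1) = (2 ^ (d + 1) / v) * ((N / 2) ^ (d + 1) * v) := by
            rw [div_pow]
            field_simp
          have h7 : e * (2 ^ (d + 1) / v) ≤ (D * N ^ gam d c p) ^ r := by
            calc e * (2 ^ (d + 1) / v) ≤ max 1 e * (2 ^ (d + 1) / v) := by
                  gcongr
                  exact le_max_right _ _
              _ ≤ D := hDa
              _ = D * 1 := (mul_one D).symm
              _ ≤ D * N ^ gam d c p := by gcongr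
              _ ≤ (D * N ^ gam d c p) ^ r := le_rpow_self' (by
                  calc (1 : ℝ) = 1 * 1 := (one_mul 1).symm
                    _ ≤ D * N ^ gam d c p := mul_le_mul hD1 hNg zero_le_one hD0.le) hr1
          calc M ^ (r - q) * Q = (M ^ (r - q) * M ^ q) * (e * N ^ (d + 1)) := by rw [hQ]; ring
            _ = M ^ r * (e * N ^ (d + 1)) := by rw [h5]
            _ = (e * (2 ^ (d + 1) / v)) * (M ^ r * ((N / 2) ^ (d + 1) * v)) := by
                conv_lhs => rw [h6]
                ring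
            _ ≤ _ := by gcongr
        calc ∫⁻ y, Fb N ω f a y ^ r ≤ ENNReal.ofReal (M ^ (r - q) * Q) := h1
          _ ≤ ENNReal.ofReal ((D * N ^ gam d c p) ^ r * (M ^ r * ((N / 2) ^ (d + 1) * v))) :=
              ENNReal.ofReal_le_ofReal h3
          _ = ENNReal.ofReal ((D * N ^ gam d c p) ^ r) * ENNReal.ofReal (M ^ r * ((N / 2) ^ (d + 1) * v)) :=
              ENNReal.ofReal_mul (by positivity)
          _ ≤ _ := mul_le_mul' le_rfl hlow1
    have hpos : 0 < D * N ^ gam d c p := by positivity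
    calc (∫⁻ y, Fb N ω f a y ^ r) ^ (1 / r)
        ≤ (ENNReal.ofReal ((D * N ^ gam d c p) ^ r) * ∫⁻ y, Fb N ω f (fun _ => 0) y ^ r) ^ (1 / r) :=
          ENNReal.rpow_le_rpow key (by positivity)
      _ = ENNReal.ofReal (D * N ^ gam d c p) * (∫⁻ y, Fb N ω f (fun _ => 0) y ^ r) ^ (1 / r) := by
          rw [ENNReal.mul_rpow_of_nonneg _ _ (by positivity), ENNReal.ofReal_rpow_of_pos (by positivity),
            ← Real.rpow_mul hpos.le, mul_one_div_cancel hr0.ne', Real.rpow_one]


end Pool.Agent.Y244.AC
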